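import Mathlib

namespace Pool.Agent.Results.MP_294c13_lc.Indep

open Set Filter Cardinal

/-- `g` avoids middles in `P`. -/
def Avoid (g : ℕ → ℕ) (P : Set (ℕ → ℕ)) : Prop :=
  (∀ f ∈ P, ¬ g ≤ᶠ[atTop] f) ∧ ∀ f ∈ P, ∀ h ∈ P,
    {n | f n < g n ∧ g n ≤ h n}.Finite ∨ {n | h n < g n ∧ g n ≤ f n}.Finite

/-- The least number of middle-avoidable sets with dominating union. -/
noncomputable def addXD : Cardinal.{0} := sInf {k | ∃ F : Set (Set (ℕ → ℕ)), #F = k ∧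
  (∀ P ∈ F, ∃ g, Avoid g P) ∧ ∀ h : ℕ → ℕ, ∃ f ∈ ⋃₀ F, h ≤ᶠ[atTop] f}

/-- The covering number of the meagre ideal of Baire space. -/
noncomputable def covM : Cardinal.{0} := sInf {k | ∃ F : Set (Set (ℕ → ℕ)), #F = k ∧
  (∀ P ∈ F, IsMeagre P) ∧ ⋃₀ F = Set.univ}

/-- The bounding number. -/
noncomputable def bb : Cardinal.{0} := sInf {k | ∃ F : Set (ℕ → ℕ), #F = k ∧
  ¬ ∃ h : ℕ → ℕ, ∀ f ∈ F, f ≤ᶠ[atTop] h}

/-- A free ultrafilter on `ℕ` generated modulo finite sets by an almost-inclusion chain, in which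
every family of at most `k` members has a pseudo-intersection in the ultrafilter. -/
def SimpleP (k : Cardinal.{0}) : Prop := ∃ U : Ultrafilter ℕ, (∀ B ∈ U, B.Infinite) ∧
  (∃ C : Set (Set ℕ), (∀ A ∈ C, A ∈ U) ∧ (∀ A ∈ C, ∀ B ∈ C, (A \ B).Finite ∨ (B \ A).Finite) ∧
    ∀ B ∈ U, ∃ A ∈ C, (A \ B).Finite) ∧
  ∀ S : Set (Set ℕ), (∀ B ∈ S, B ∈ U) → #S ≤ k → ∃ A ∈ U, ∀ B ∈ S, (A \ B).Finite

theorem ev {p : ℕ → Prop} : (∀ᶠ n in atTop, p n) ↔ {n | ¬ p n}.Finite := by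
  rw [← Nat.cofinite_eq_atTop, eventually_cofinite]

theorem one : bb ≤ addXD := by
  have hne : ({k | ∃ F : Set (Set (ℕ → ℕ)), #F = k ∧ (∀ P ∈ F, ∃ g, Avoid g P) ∧
      ∀ h : ℕ → ℕ, ∃ f ∈ ⋃₀ F, h ≤ᶠ[atTop] f} : Set Cardinal.{0}).Nonempty := by
    refine ⟨_, range singleton, rfl, ?_, fun h => ⟨h, ⟨{h}, ⟨h, rfl⟩, rfl⟩, EventuallyLE.refl _ _⟩⟩
    rintro _ ⟨f, rfl⟩
    refine ⟨fun n => f n + 1, ?_, ?_⟩
    · rintro _ rfl k
      obtain ⟨n, hn⟩ := k.exists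
      simp at hn
    · rintro _ rfl _ rfl
      exact .inl (finite_empty.subset fun n hn => absurd hn.1 (not_lt.2 hn.2))
  obtain ⟨F, f1, f2, f3⟩ := csInf_mem hne
  choose! g hg using f2
  refine le_trans (b := #(g '' F)) (csInf_le' ⟨g '' F, rfl, ?_⟩) (mk_image_le.trans f1.le)
  rintro ⟨h, hh⟩
  obtain ⟨f, ⟨P, p1, p2⟩, p3⟩ := f3 h
  exact (hg P p1).1 f p2 ((hh _ ⟨P, p1, rfl⟩).trans p3)

theorem two (H : SimpleP bb) : addXD ≤ bb := by
  classical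
  obtain ⟨U, u1, ⟨C, c1, c2, c3⟩, u2⟩ := H
  have hne : ({k | ∃ F : Set (ℕ → ℕ), #F = k ∧
      ¬ ∃ h : ℕ → ℕ, ∀ f ∈ F, f ≤ᶠ[atTop] h} : Set Cardinal.{0}).Nonempty := by
    refine ⟨_, Set.univ, rfl, fun ⟨h, hh⟩ => ?_⟩
    obtain ⟨n, hn⟩ := (hh (fun n => h n + 1) trivial).exists
    simp at hn
  obtain ⟨F, f1, f2⟩ := csInf_mem hne
  let g : (ℕ → ℕ) → ℕ → ℕ := fun f n => (Finset.range (n + 1)).sup f + 1
  have hg : ∀ f n m, n ≤ m → f n < g f m := fun f n m l =>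
    Nat.lt_succ_of_le (Finset.le_sup (f := f) (Finset.mem_range.2 (by omega)))
  refine le_trans (b := #((fun f => {p : ℕ → ℕ | {n | p n < g f n} ∈ C}) '' F))
    (csInf_le' ⟨_, rfl, ?_, fun h => ?_⟩) (mk_image_le.trans f1.le)
  · rintro _ ⟨f, -, rfl⟩
    refine ⟨g f, fun p hp k => u1 _ (c1 _ hp) ((ev.1 k).subset fun n hn => not_le.2 hn),
      fun p hp q hq => (c2 _ hp _ hq).imp (fun l => l.subset fun n hn => ⟨hn.1, not_lt.2 hn.2⟩)
        fun l => l.subset fun n hn => ⟨hn.1, not_lt.2 hn.2⟩⟩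
  · have : ∃ f ∈ F, {n | h n < g f n} ∈ U := by
      by_contra! k
      obtain ⟨A, a1, a2⟩ := u2 ((fun f => {n | h n < g f n}ᶜ) '' F)
        (by rintro _ ⟨f, hf, rfl⟩; exact Ultrafilter.compl_mem_iff_notMem.2 (k f hf))
        (mk_image_le.trans f1.le)
      choose x x1 x2 using (u1 A a1).exists_gt
      refine f2 ⟨fun n => h (x n), fun f hf => ?_⟩
      obtain ⟨N, hN⟩ := (a2 _ ⟨f, hf, rfl⟩).bddAbove
      refine eventually_atTop.2 ⟨N, fun n hn => ?_⟩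
      by_contra l
      have := hN (a := x n) ⟨x1 n, fun k => k ((not_le.1 l).trans (hg f n _ (x2 n).le))⟩
      have := x2 n
      omega
    obtain ⟨f, hf, k⟩ := this
    obtain ⟨A, a1, a2⟩ := c3 _ k
    refine ⟨fun n => if n ∈ A then min (h n) (g f n - 1) else max (h n) (g f n),
      ⟨_, ⟨f, hf, rfl⟩, ?_⟩, ev.2 (a2.subset fun n hn => ?_)⟩
    · show {n | (if n ∈ A then min (h n) (g f n - 1) else max (h n) (g f n)) < g f n} ∈ C
      convert a1 using 1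
      ext n
      have := hg f n n le_rfl
      by_cases l : n ∈ A <;> simp [l]
      omega
    · by_cases l : n ∈ A
      · refine ⟨l, fun k => hn ?_⟩
        simp only [mem_setOf_eq] at k
        simp only [l, if_true]
        omega
      · simp [l] at hn

theorem result : bb ≤ addXD ∧ (covM ≤ bb → covM ≤ addXD) ∧ (SimpleP bb → addXD = bb) ∧
    (SimpleP bb → bb < covM → addXD < covM) :=
  ⟨one, fun h => h.trans one, fun h => (two h).antisymm one, fun h k => (two h).trans_lt k⟩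

end Pool.Agent.Results.MP_294c13_lc.Indep
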